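import Pool.Agent.K9h47.JM.Fin
import Pool.Agent.K9h47.JM.Sub
import Pool.Agent.K9h47.JM.Mob
import Pool.Agent.K9h47.JL.Rn
import Pool.Agent.K9h47.JL.Ker
import Pool.Agent.K9h47.JL.Cmp
import Pool.Agent.K9h47.JL.Mean
import Pool.Agent.K9h47.JL.Limg
import Pool.Agent.K9h47.JL.Ctwo
import Pool.Agent.K9h47.JL.Pol
import Pool.Agent.K9h47.JL.Wt
import Pool.Agent.K9h47.JL.Dilc2
import Pool.Agent.K9h47.JL.Wone
import Pool.Agent.K9h47.JL.Wtwo
import Pool.Agent.K9h47.JL.Wthr
import Pool.Agent.K9h47.JL.Win
import Pool.Agent.K9h47.JL.Vin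
import Pool.Agent.K9h47.JL.Apq
import Pool.Agent.K9h47.JL.Pdw
import Pool.Agent.K9h47.JL.Levy
import Pool.Agent.K9h47.JL.Tor
import Pool.Agent.K9h47.JL.Ntv
import Pool.Agent.K9h47.JL.Alg
import Pool.Agent.K9h47.JL.Haar
import Pool.Agent.K9h47.JL.Dec
import Pool.Agent.K9h47.JL.Den
import Pool.Agent.K9h47.JL.Row

/-!
# The joint law of the local frequencies of the Moebius function

For `n ≥ 1` and a window length `H` let `F_H(n, α) = (1/H) ∑_{0 ≤ h < H} μ(n + h) e(h α)`, `μ` the Moebius function. The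
question, for rotations of the circle, is whether for large `H` all frequencies `α` have small `F_H(n, α)`, for most `n` in
the logarithmic sense. We describe what the large values can look like. Draw `s` frequencies `α_1, ..., α_s` with the
densities `H |F_H(n, α_l)|^4` in the same window, `n` with the logarithmic weights up to `N`. For every sequence of `N`
there is a subsequence along which, for all `s`, the joint laws converge as `N → ∞`, and then as `H → ∞`, to a countable
combination of the uniform distributions of rational affine subtori `τ + M 𝕋^s`, `τ` rational and `M` an integer matrix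
without a zero row.

Proof. As for functions with values `1` and `-1` (`MP_4a7640_nt/JointFrequencyLaw`), for which only the values at the
primes must be `1` or `-1`: limits of correlations are invariant under dilation by primes, on average (Tao); this passes
to the joint laws by a Cauchy-Schwarz argument; Vinogradov's theorem gives the form of the limit.
-/

set_option autoImplicit false

open MeasureTheory Filter Topology Finset

namespace Pool.Agent.Results.MP_663568_nt.JointFrequencies

/-- The local Fourier transform `F_H(n, α) = (1/H) ∑_{0 ≤ h < H} μ(n + h) e(h α)` of the Moebius function. -/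
noncomputable def F (H n : ℕ) (α : UnitAddCircle) : ℂ :=
  (∑ h ∈ range H, ((ArithmeticFunction.moebius (n + h) : ℝ) : ℂ) * fourier (h : ℤ) α) / H

/-- The mean of `G(α_1, ..., α_s)` if the `s` frequencies are drawn in the same window, starting at `n`, with the
densities `H |F_H(n, α_l)|^4`, and `n ≤ N` is drawn with the logarithmic weights `1/(n log N)`. -/
noncomputable def jointMean (s H N : ℕ) (G : (Fin s → UnitAddCircle) → ℝ) : ℝ :=
  (1 / Real.log (N : ℝ)) * ∑ n ∈ Icc 1 N, (1 / (n : ℝ)) *
    ∫ α : Fin s → UnitAddCircle, G α * ∏ l, ((H : ℝ) * ‖F H n (α l)‖ ^ 4)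

/-- The mean of `G` over the rational affine subtorus `τ + M 𝕋^s`. -/
noncomputable def torusMean {s : ℕ} (M : Matrix (Fin s) (Fin s) ℤ) (τ : Fin s → ℚ)
    (G : (Fin s → UnitAddCircle) → ℝ) : ℝ :=
  ∫ β : Fin s → UnitAddCircle, G (fun l => ((τ l : ℝ) : UnitAddCircle) + ∑ j, M l j • β j)

open Pool.Agent.K9h47.JL Pool.Agent.K9h47.JM in
/-- **The joint law of the local frequencies of the Moebius function.** -/
theorem result (N : ℕ → ℕ) (hN : Tendsto N atTop atTop) :
    ∃ ψ : ℕ → ℕ, StrictMono ψ ∧ ∀ s : ℕ, ∃ w : Matrix (Fin s) (Fin s) ℤ × (Fin s → ℚ) → ℝ,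
      (∀ i, 0 ≤ w i) ∧ Summable w ∧ (∀ i, w i ≠ 0 → ∀ l, ∃ j, i.1 l j ≠ 0) ∧
      ∀ G : C(Fin s → UnitAddCircle, ℝ), ∃ L : ℕ → ℝ,
        (∀ H, Tendsto (fun j => jointMean s H (N (ψ j)) G) atTop (𝓝 (L H))) ∧
        Tendsto L atTop (𝓝 (∑' i, w i * torusMean i.1 i.2 G)) := by
  obtain ⟨ψ, hψ, μ, hprob, hlim⟩ := sub mob N hN
  refine ⟨ψ, hψ, fun s => ?_⟩
  have hμ : Pool.Agent.Results.MP_4a7640_nt.DisplacedCubes.IsFurstenbergSystem mob μ :=
    ⟨hprob, fun j => N (ψ j), hN.comp hψ.tendsto_atTop, hlim⟩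
  obtain ⟨w, hw0, hws, hrow, hw⟩ := finV rn (limg ker (cmp ker) mean) (dilc ctwo pol wt) wone
    (win (wtwo ctwo) wthr) vin apq wt pdw levy tor ntv alg haar dec den row mob mob_ok.1 mob_ok.2.1 mob_ok.2.2 μ hμ s
  refine ⟨w, hw0, hws, hrow, fun G => ⟨fun H => ∫ x, phi G H x ∂μ, fun H => ?_, hw G⟩⟩
  have h1 := hlim (phi G H) (phi_cont G H)
  refine h1.congr fun j => ?_
  unfold jointMean
  congr 1
  refine sum_congr rfl fun n hn => ?_
  congr 1
  have hn1 : 1 ≤ n := (mem_Icc.1 hn).1
  unfold phi
  simp only [FF_seq mob H n hn1]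
  rfl

end Pool.Agent.Results.MP_663568_nt.JointFrequencies
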