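import Pool.Agent.K9h46.ZO.Fin

/-!
# Polynomial phases of every degree: a set of leading coefficients of positive measure controls all of them

For the Möbius and Liouville functions, in logarithmic average over `n`: the largest correlation in a long window
`(n, n + H]` with a polynomial phase of degree at most `d` is controlled, with the measure of the closure of `E` as the
constant, by the largest correlation with phases whose leading coefficient is in `E`, in windows of a fixed length `K`,
and by the phases of degree at most `d - 1` (no such term if `d = 1`).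

Consequence (zero-one law, proved in `Pool/Agent/K9h46/ZO/Fin.lean`, not part of the statement): if for each `j ≤ d`
the correlations with the phases of degree at most `j` vanish asymptotically when the leading coefficient is restricted
to one set `E j` whose closure has positive measure, then they vanish for all phases of degree at most `d`, uniformly
over `N ≥ H`.
-/

set_option autoImplicit false

open Finset Polynomial MeasureTheory

namespace Pool.Agent.Results.MP_663568_nt.LeadingCoefficients

/-- `e(x) = exp(2 π i x)` -/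
noncomputable def e (x : ℝ) : ℂ := Complex.exp (2 * Real.pi * Complex.I * x)

/-- `f` is the Möbius function or the Liouville function. -/
def IsMoebiusOrLiouville (f : ℕ → ℤ) : Prop :=
  (∀ n, f n = ArithmeticFunction.moebius n) ∨ ∀ n, f n = (-1) ^ ArithmeticFunction.cardFactors n

/-- The supremum of `|(1/H) ∑_{1 ≤ h ≤ H} f(n + h) e(P(n + h))|` over all real polynomials `P` of degree at most `d`
whose coefficient of `x ^ d` is in `E` modulo one; all other coefficients are arbitrary. -/
noncomputable def phaseSup (d : ℕ) (E : Set UnitAddCircle) (f : ℕ → ℤ) (n H : ℕ) : ℝ :=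
  (⨆ P : {P : ℝ[X] // P.natDegree ≤ d ∧ ((P.coeff d : ℝ) : UnitAddCircle) ∈ E},
    ‖∑ h ∈ Icc 1 H, ((f (n + h) : ℤ) : ℂ) * e (P.1.eval ((n + h : ℕ) : ℝ))‖) / H

lemma phaseSup_eq (d : ℕ) (E : Set UnitAddCircle) (f : ℕ → ℤ) (n H : ℕ) :
    phaseSup d E f n H = Pool.Agent.Helper44K9.FU.wSup d E (fun m => ((f m : ℤ) : ℂ)) n H / H := by
  unfold phaseSup Pool.Agent.Helper44K9.FU.wSup Pool.Agent.Helper44K9.FU.W
  have h1 : Ioc n (n + H) = (Icc 1 H).image (fun h => n + h) := by
    ext m
    simp only [mem_Ioc, mem_image, mem_Icc]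
    constructor
    · intro h; exact ⟨m - n, by omega, by omega⟩
    · rintro ⟨j, hj, rfl⟩; omega
  congr 2
  funext P
  rw [h1, sum_image fun a _ b _ hab => by omega]
  rfl

lemma ml {f : ℕ → ℤ} (hf : IsMoebiusOrLiouville f) : Pool.Agent.K9h46.ZO.ML (fun m => ((f m : ℤ) : ℂ)) := by
  rcases hf with h | h
  · left
    funext n
    rw [h n]
    rfl
  · right
    funext n
    rw [h n]
    rfl

/-- Let `f` be the Möbius or the Liouville function and `d ≥ 1`. For every set `E` of leading coefficients, every window
length `K` and every `ε > 0` there is a constant `C`, with `C = 0` if `d = 1`, such that for every window length `L`,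
uniformly over `N ≥ H ≥ H₀`: the measure of the closure of `E` times `∑_{n ≤ N} (1/n) phaseSup d (ℝ/ℤ) f n H` (ALL
polynomials of degree at most `d`, long windows) is at most
`∑_{n ≤ N} (1/n) phaseSup d E f n K + C ∑_{n ≤ N} (1/n) phaseSup (d - 1) (ℝ/ℤ) f n L + ε log N`. -/
theorem result (f : ℕ → ℤ) (hf : IsMoebiusOrLiouville f) (d : ℕ) (hd : 1 ≤ d) (E : Set UnitAddCircle) (K : ℕ)
    (hK : 1 ≤ K) (ε : ℝ) (hε : 0 < ε) :
    ∃ C : ℕ, (d = 1 → C = 0) ∧ ∀ L : ℕ, 1 ≤ L → ∃ H₀ : ℕ, ∀ H N : ℕ, H₀ ≤ H → H ≤ N →
      (volume (closure E)).toReal * ∑ n ∈ Icc 1 N, (1 / (n : ℝ)) * phaseSup d Set.univ f n H ≤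
        ∑ n ∈ Icc 1 N, (1 / (n : ℝ)) * phaseSup d E f n K +
        C * ∑ n ∈ Icc 1 N, (1 / (n : ℝ)) * phaseSup (d - 1) Set.univ f n L + ε * Real.log N := by
  simp only [phaseSup_eq]
  exact Pool.Agent.K9h46.ZO.partA (ml hf) hd E hK hε

end Pool.Agent.Results.MP_663568_nt.LeadingCoefficients
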