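import Pool.Agent.Helper47.Freq.Stm

/-!
# Every set of frequencies of positive measure controls all local Fourier coefficients of the Möbius function

For the Möbius and Liouville functions, in logarithmic average over `n`, the largest local Fourier coefficient over ALL
frequencies (in long windows) is controlled by the largest local Fourier coefficient with frequency in any given set `E`
(in windows of any fixed length), with the measure of the closure of `E` as the constant.

Consequence (proved in `Pool/Agent/Helper47/Freq/Stm.lean`, not part of the statement), the zero-one law: if short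
interval disjointness holds for `e(x)` and the rotations of the circle in one set `E` whose closure has positive
measure, then it holds for all rotations of all tori and all continuous functions.
-/

set_option autoImplicit false

open Finset MeasureTheory

namespace Pool.Agent.Results.MP_663568_nt.OneSetControlsAll

/-- `f` is the Möbius function or the Liouville function. -/
def IsMoebiusOrLiouville (f : ℕ → ℤ) : Prop :=
  (∀ n, f n = ArithmeticFunction.moebius n) ∨ ∀ n, f n = (-1) ^ ArithmeticFunction.cardFactors n

/-- The supremum of `|(1/H) ∑_{1 ≤ h ≤ H} f(n + h) e(α (n + h))|` over all frequencies `α` in `E`. -/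
noncomputable def expSup (f : ℕ → ℤ) (E : Set UnitAddCircle) (n H : ℕ) : ℝ :=
  ⨆ α : E, ‖∑ h ∈ Icc 1 H, ((f (n + h) : ℤ) : ℂ) * fourier ((n : ℤ) + h) (α : UnitAddCircle)‖ / H

/-- Let `f` be the Möbius or the Liouville function. For every set `E` of frequencies and every fixed window length
`K`, uniformly over `N ≥ H ≥ H₀`, the measure of the closure of `E` times
`∑_{n ≤ N} (1/n) sup_α |(1/H) ∑_{h ≤ H} f(n+h) e(α(n+h))|^4`, the supremum over ALL frequencies, is at most
`∑_{n ≤ N} (1/n) sup_{α ∈ E} |(1/K) ∑_{h ≤ K} f(n+h) e(α(n+h))|² + ε log N`. -/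
theorem result (f : ℕ → ℤ) (hf : IsMoebiusOrLiouville f) (E : Set UnitAddCircle) (K : ℕ) (hK : 1 ≤ K) (ε : ℝ)
    (hε : 0 < ε) : ∃ H₀ : ℕ, ∀ N H : ℕ, H₀ ≤ H → H ≤ N →
      (volume (closure E)).toReal * ∑ n ∈ Icc 1 N, (1 / (n : ℝ)) * expSup f Set.univ n H ^ 4 ≤
        ∑ n ∈ Icc 1 N, (1 / (n : ℝ)) * expSup f E n K ^ 2 + ε * Real.log N := by
  rcases hf with h | h
  · exact (Pool.Agent.Helper47.Freq.all_parts f (6 / Real.pi ^ 2) (Or.inl ⟨h, rfl⟩)).2.1 E K hK ε hε
  · exact (Pool.Agent.Helper47.Freq.all_parts f 1 (Or.inr ⟨h, rfl⟩)).2.1 E K hK ε hε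

end Pool.Agent.Results.MP_663568_nt.OneSetControlsAll
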