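import Pool.Agent.Helper47.Freq.Stm

/-!
# The frequencies of the Möbius function in short intervals are uniformly distributed

For the Möbius and Liouville functions, in logarithmic average over `n`, the fourth power of the largest local Fourier
coefficient with frequency in a set `E` is bounded by the measure of (the closure of) `E`.

Consequences (proved in `Pool/Agent/Helper47/Freq/Stm.lean`, not part of the statement): if `E` is a set of rotations of
the torus `ℝ^d/ℤ^d` and for each `k ≠ 0` the closure of `k · E` is a null set, then short interval disjointness holds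
for all continuous functions on the torus and the rotations in `E`.
-/

set_option autoImplicit false

open Finset MeasureTheory

namespace Pool.Agent.Results.MP_663568_nt.UniformFrequencies

/-- `f` is the Möbius function and `κ = 6/π²`, or `f` is the Liouville function and `κ = 1`. -/
def IsMoebiusOrLiouville (f : ℕ → ℤ) (κ : ℝ) : Prop :=
  ((∀ n, f n = ArithmeticFunction.moebius n) ∧ κ = 6 / Real.pi ^ 2) ∨
    ((∀ n, f n = (-1) ^ ArithmeticFunction.cardFactors n) ∧ κ = 1)

/-- The supremum of `|(1/H) ∑_{1 ≤ h ≤ H} f(n + h) e(α (n + h))|` over all frequencies `α` in `E`. -/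
noncomputable def expSup (f : ℕ → ℤ) (E : Set UnitAddCircle) (n H : ℕ) : ℝ :=
  ⨆ α : E, ‖∑ h ∈ Icc 1 H, ((f (n + h) : ℤ) : ℂ) * fourier ((n : ℤ) + h) (α : UnitAddCircle)‖ / H

/-- **Uniform distribution of the local frequencies.** Let `f` be the Möbius function (`κ = 6/π²`) or the Liouville
function (`κ = 1`). For every set `E` of frequencies, uniformly over `N ≥ H ≥ H₀`,
`∑_{n ≤ N} (1/n) sup_{α ∈ E} |(1/H) ∑_{h ≤ H} f(n+h) e(α(n+h))|^4 ≤ (κ³ |cl E| + ε) log N`. -/
theorem result (f : ℕ → ℤ) (κ : ℝ) (hf : IsMoebiusOrLiouville f κ) (E : Set UnitAddCircle) (ε : ℝ) (hε : 0 < ε) :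
    ∃ H₀ : ℕ, ∀ N H : ℕ, H₀ ≤ H → H ≤ N →
      ∑ n ∈ Icc 1 N, (1 / (n : ℝ)) * expSup f E n H ^ 4 ≤
        (κ ^ 3 * (volume (closure E)).toReal + ε) * Real.log N :=
  (Pool.Agent.Helper47.Freq.all_parts f κ hf).1 E ε hε

end Pool.Agent.Results.MP_663568_nt.UniformFrequencies
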